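import Pool.Agent.TH185.Glue
import Pool.Agent.TH126.J383
import Pool.Agent.TH126.J634

/-!
# The Kac-type conjecture for curves fails in rank two

Let `X` be a smooth projective curve of genus `g ≥ 2` over the algebraic closure `𝕜` of a finite
field, and `d` an integer. The space of primitive elements of class `(2, d)` of the spherical Hall
algebra of `X` (constructible functions, Euler characteristic product) has dimension at most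
`g - 1`; since `A_{g,2,d}(0) = g`, this refutes `dim 𝔥^sph_{X,(2,d)} = A_{g,2,d}(0)`. Such curves
exist for every `g ≥ 2`.
-/

namespace Pool.Agent.Results.MP_cc3443_ag.RankTwo

open Pool.Agent.TH185 Pool.Agent.TH185.C

/-- For every `d` the primitive elements of class `(2, d)` of the spherical Hall algebra form a
space of dimension at most `g - 1`, hence smaller than `g`. -/
def PrimitivesTooFew {𝕜 K : Type} [Field 𝕜] [IsAlgClosed 𝕜] [Field K] [Algebra 𝕜 K] {q : ℕ}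
    (Φ : FrobeniusStructure 𝕜 K q) (ℓ : ℕ) [Fact ℓ.Prime] : Prop :=
  ∀ U : Ultrafilter ℕ, (U : Filter ℕ) ≤ Filter.atTop → ∀ d : ℤ,
    FiniteDimensional ℚ_[ℓ] (hsph Φ ℓ U 2 d) ∧
      Module.finrank ℚ_[ℓ] (hsph Φ ℓ U 2 d) ≤ genus 𝕜 K - 1 ∧
      Module.finrank ℚ_[ℓ] (hsph Φ ℓ U 2 d) < genus 𝕜 K

theorem primitives_too_few (p : ℕ) (hp : p.Prime) (𝕜 K : Type) [Field 𝕜] [IsAlgClosed 𝕜]
    [CharP 𝕜 p] [Field K] [Algebra 𝕜 K] (hK : IsCurve 𝕜 K) (hg : 2 ≤ genus 𝕜 K) (e : ℕ)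
    (he : 0 < e) (Φ : FrobeniusStructure 𝕜 K (p ^ e)) (ℓ : ℕ) [Fact ℓ.Prime] (hℓ : ℓ ≠ p) :
    PrimitivesTooFew Φ ℓ := by
  intro U hU d
  let S : FD 𝕜 K :=
    { p := p
      prime := hp
      char := inferInstance
      e := e
      epos := he
      ψ := Φ.frob
      const := Φ.frob_const
      locFin := Φ.locallyFinite }
  have hg0 : genus 𝕜 K ≠ 0 := by omega
  have h := hsph_bound (S := S) (U := U) Φ rfl hK hg0 hℓ hU d fun w =>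
    word_formula hK (fun S => S.finite_fix hK) (fun S E b hE => lines_finite hK hg0 S E b hE)
      (hecke_all hK) w d
  exact ⟨h.1, h.2, by omega⟩

theorem result :
    (∀ (p : ℕ), p.Prime → ∀ (𝕜 K : Type) [Field 𝕜] [IsAlgClosed 𝕜] [CharP 𝕜 p] [Field K]
      [Algebra 𝕜 K], IsCurve 𝕜 K → 2 ≤ genus 𝕜 K → ∀ e : ℕ, 0 < e →
      ∀ (Φ : FrobeniusStructure 𝕜 K (p ^ e)) (ℓ : ℕ) [Fact ℓ.Prime], ℓ ≠ p →
        PrimitivesTooFew Φ ℓ) ∧
    (∀ g : ℕ, 2 ≤ g → ∃ (𝕜 K : Type) (_ : Field 𝕜) (_ : IsAlgClosed 𝕜) (_ : Field K)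
      (_ : Algebra 𝕜 K) (Φ : FrobeniusStructure 𝕜 K 2), CharP 𝕜 2 ∧ IsCurve 𝕜 K ∧
        genus 𝕜 K = g ∧ ∀ (ℓ : ℕ) [Fact ℓ.Prime], ℓ ≠ 2 → PrimitivesTooFew Φ ℓ) := by
  refine ⟨fun p hp 𝕜 K _ _ _ _ _ hK hg e he Φ ℓ _ hℓ =>
    primitives_too_few p hp 𝕜 K hK hg e he Φ ℓ hℓ, fun g hg => ?_⟩
  obtain ⟨𝕜, K, i1, i2, i3, hac, hch, hK, hgen, ⟨Φ⟩⟩ := exists_curve g hg
  refine ⟨𝕜, K, i1, hac, i2, i3, Φ, hch, hK, hgen, fun ℓ _ hℓ => ?_⟩
  have hg' : 2 ≤ genus 𝕜 K := hgen ▸ hg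
  exact primitives_too_few 2 Nat.prime_two 𝕜 K hK hg' 1 one_pos Φ ℓ hℓ

end Pool.Agent.Results.MP_cc3443_ag.RankTwo
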